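import Pool.Agent.Helper65.HF.StN

/-!
Project HF, module ASY.
-/

namespace Pool.Agent.Helper54.HF

open Pool.Agent.Helper65.HF Pool.Agent.Helper45

theorem asy_a (i : ℕ) : ∃ C : ℝ, 0 ≤ C ∧ ∀ r : ℕ,
    (r : ℝ) * |(r.choose i : ℝ) - (r : ℝ) ^ i / (i.factorial : ℝ)| ≤ C * (r : ℝ) ^ i := by
  induction i with
  | zero => exact ⟨0, le_rfl, fun r => by simp⟩
  | succ i ih =>
    obtain ⟨C, hC, h⟩ := ih
    refine ⟨C + 1, by linarith, fun r => ?_⟩
    rcases Nat.eq_zero_or_pos r with h0 | h0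
    · subst h0; simp
    have hr : (1 : ℝ) ≤ r := by exact_mod_cast h0
    have hi : (0 : ℝ) < (i : ℝ) + 1 := by positivity
    have hrec : ((r.choose (i + 1) : ℕ) : ℝ) * ((i : ℝ) + 1) = (r.choose i : ℝ) * ((r : ℝ) - i) := by
      have h1 := Nat.choose_succ_right_eq r i
      rcases le_or_gt i r with h2 | h2
      · have : ((r.choose (i + 1) * (i + 1) : ℕ) : ℝ) = ((r.choose i * (r - i) : ℕ) : ℝ) := by
          rw [h1]
        push_cast [Nat.cast_sub h2] at this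
        exact this
      · rw [Nat.choose_eq_zero_of_lt h2, Nat.choose_eq_zero_of_lt (by omega)]
        simp
    set x : ℝ := (r.choose i : ℝ) - (r : ℝ) ^ i / (i.factorial : ℝ) with hx
    have hfac : (((i + 1).factorial : ℕ) : ℝ) = ((i : ℝ) + 1) * (i.factorial : ℝ) := by
      rw [Nat.factorial_succ]; push_cast; ring
    have hf : (1 : ℝ) ≤ (i.factorial : ℝ) := by exact_mod_cast Nat.factorial_pos i
    have e : (r.choose (i + 1) : ℝ) - (r : ℝ) ^ (i + 1) / ((i + 1).factorial : ℝ) =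
        (x * ((r : ℝ) - i) - (r : ℝ) ^ i / (i.factorial : ℝ) * i) / ((i : ℝ) + 1) := by
      rw [eq_div_iff hi.ne', hfac, sub_mul, hrec, hx]
      field_simp
      ring
    rw [e, abs_div, abs_of_pos hi]
    have hb1 : |(r : ℝ) - i| ≤ (r : ℝ) * ((i : ℝ) + 1) := by
      rw [abs_le]
      have : (0 : ℝ) ≤ i := Nat.cast_nonneg i
      constructor <;> nlinarith
    have hb2 : |x * ((r : ℝ) - i) - (r : ℝ) ^ i / (i.factorial : ℝ) * i| ≤
        |x| * ((r : ℝ) * ((i : ℝ) + 1)) + (r : ℝ) ^ i * ((i : ℝ) + 1) := by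
      refine (abs_sub _ _).trans (add_le_add ?_ ?_)
      · rw [abs_mul]
        exact mul_le_mul_of_nonneg_left hb1 (abs_nonneg _)
      · rw [abs_of_nonneg (by positivity)]
        have h3 : (r : ℝ) ^ i / (i.factorial : ℝ) ≤ (r : ℝ) ^ i :=
          div_le_self (by positivity) hf
        exact mul_le_mul h3 (by linarith) (by positivity) (by positivity)
    have hh := h r
    calc (r : ℝ) * (|x * ((r : ℝ) - i) - (r : ℝ) ^ i / (i.factorial : ℝ) * i| / ((i : ℝ) + 1))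
        ≤ (r : ℝ) * ((|x| * ((r : ℝ) * ((i : ℝ) + 1)) + (r : ℝ) ^ i * ((i : ℝ) + 1)) /
          ((i : ℝ) + 1)) := by gcongr
      _ = (r : ℝ) * |x| * r + (r : ℝ) ^ i * r := by field_simp
      _ ≤ C * (r : ℝ) ^ i * r + (r : ℝ) ^ i * r := by gcongr
      _ = (C + 1) * (r : ℝ) ^ (i + 1) := by ring

theorem asy_b (x : ℕ) : ∃ C : ℝ, 0 ≤ C ∧ ∀ M : ℕ, 1 ≤ M →
    (M : ℝ) * |((M + x - 1).choose x : ℝ) - (M : ℝ) ^ x / (x.factorial : ℝ)| ≤ C * (M : ℝ) ^ x := by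
  induction x with
  | zero => exact ⟨0, le_rfl, fun r _ => by simp⟩
  | succ i ih =>
    obtain ⟨C, hC, h⟩ := ih
    refine ⟨C + 1, by linarith, fun r h0 => ?_⟩
    have hr : (1 : ℝ) ≤ r := by exact_mod_cast h0
    have hi : (0 : ℝ) < (i : ℝ) + 1 := by positivity
    have hrec : (((r + (i + 1) - 1).choose (i + 1) : ℕ) : ℝ) * ((i : ℝ) + 1) =
        ((r + i - 1).choose i : ℝ) * ((r : ℝ) + i) := by
      obtain ⟨m, rfl⟩ : ∃ m, r = m + 1 := ⟨r - 1, by omega⟩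
      have e1 : m + 1 + (i + 1) - 1 = (m + i) + 1 := by omega
      have e2 : m + 1 + i - 1 = m + i := by omega
      rw [e1, e2]
      have h1 := Nat.add_one_mul_choose_eq (m + i) i
      have : (((m + i + 1) * (m + i).choose i : ℕ) : ℝ) =
          (((m + i + 1).choose (i + 1) * (i + 1) : ℕ) : ℝ) := by rw [h1]
      push_cast at this ⊢
      linarith
    set x : ℝ := ((r + i - 1).choose i : ℝ) - (r : ℝ) ^ i / (i.factorial : ℝ) with hx
    have hfac : (((i + 1).factorial : ℕ) : ℝ) = ((i : ℝ) + 1) * (i.factorial : ℝ) := by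
      rw [Nat.factorial_succ]; push_cast; ring
    have hf : (1 : ℝ) ≤ (i.factorial : ℝ) := by exact_mod_cast Nat.factorial_pos i
    have e : ((r + (i + 1) - 1).choose (i + 1) : ℝ) - (r : ℝ) ^ (i + 1) / ((i + 1).factorial : ℝ) =
        (x * ((r : ℝ) + i) + (r : ℝ) ^ i / (i.factorial : ℝ) * i) / ((i : ℝ) + 1) := by
      rw [eq_div_iff hi.ne', hfac, sub_mul, hrec, hx]
      field_simp
      ring
    rw [e, abs_div, abs_of_pos hi]
    have hb1 : |(r : ℝ) + i| ≤ (r : ℝ) * ((i : ℝ) + 1) := by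
      rw [abs_le]
      have : (0 : ℝ) ≤ i := Nat.cast_nonneg i
      constructor <;> nlinarith
    have hb2 : |x * ((r : ℝ) + i) + (r : ℝ) ^ i / (i.factorial : ℝ) * i| ≤
        |x| * ((r : ℝ) * ((i : ℝ) + 1)) + (r : ℝ) ^ i * ((i : ℝ) + 1) := by
      refine (abs_add_le _ _).trans (add_le_add ?_ ?_)
      · rw [abs_mul]
        exact mul_le_mul_of_nonneg_left hb1 (abs_nonneg _)
      · rw [abs_of_nonneg (by positivity)]
        have h3 : (r : ℝ) ^ i / (i.factorial : ℝ) ≤ (r : ℝ) ^ i :=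
          div_le_self (by positivity) hf
        exact mul_le_mul h3 (by linarith) (by positivity) (by positivity)
    have hh := h r h0
    calc (r : ℝ) * (|x * ((r : ℝ) + i) + (r : ℝ) ^ i / (i.factorial : ℝ) * i| / ((i : ℝ) + 1))
        ≤ (r : ℝ) * ((|x| * ((r : ℝ) * ((i : ℝ) + 1)) + (r : ℝ) ^ i * ((i : ℝ) + 1)) /
          ((i : ℝ) + 1)) := by gcongr
      _ = (r : ℝ) * |x| * r + (r : ℝ) ^ i * r := by field_simp
      _ ≤ C * (r : ℝ) ^ i * r + (r : ℝ) ^ i * r := by gcongr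
      _ = (C + 1) * (r : ℝ) ^ (i + 1) := by ring

/-- One term. -/
theorem asy_t (j c i : ℕ) (Γ : ℝ) (hj : 1 ≤ j) (hΓ : 0 ≤ Γ) (hi : i * j ≤ c) :
    ∃ T : ℝ, 0 ≤ T ∧ ∀ M r : ℕ, 1 ≤ M → (r : ℝ) ≤ Γ * (M : ℝ) ^ j →
      (M : ℝ) * |(r.choose i : ℝ) * ((M + (c - i * j) - 1).choose (c - i * j) : ℝ) -
        (r : ℝ) ^ i / (i.factorial : ℝ) * ((M : ℝ) ^ (c - i * j) / ((c - i * j).factorial : ℝ))|
        ≤ T * (M : ℝ) ^ c := by
  obtain ⟨Ca, hCa, ha⟩ := asy_a i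
  obtain ⟨Cb, hCb, hb⟩ := asy_b (c - i * j)
  refine ⟨Ca * Γ ^ (i - 1) * (1 + Cb) + Γ ^ i * Cb, by positivity, ?_⟩
  intro M r hM hr
  have hM1 : (1 : ℝ) ≤ M := by exact_mod_cast hM
  have hM0 : (0 : ℝ) < M := by linarith
  set y := c - i * j with hy
  have hc : c = i * j + y := by omega
  set a : ℝ := (r.choose i : ℝ) with hadef
  set b : ℝ := ((M + y - 1).choose y : ℝ) with hbdef
  set a' : ℝ := (r : ℝ) ^ i / (i.factorial : ℝ) with ha'
  set b' : ℝ := (M : ℝ) ^ y / (y.factorial : ℝ) with hb'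
  have hfi : (1 : ℝ) ≤ (i.factorial : ℝ) := by exact_mod_cast Nat.factorial_pos i
  have hfy : (1 : ℝ) ≤ (y.factorial : ℝ) := by exact_mod_cast Nat.factorial_pos y
  have hb2 := hb M hM
  have hb3 : b ≤ (1 + Cb) * (M : ℝ) ^ y := by
    have h1 : |b - b'| ≤ (M : ℝ) * |b - b'| := le_mul_of_one_le_left (abs_nonneg _) hM1
    have h2 : b - b' ≤ |b - b'| := le_abs_self _
    have h3 : b' ≤ (M : ℝ) ^ y := div_le_self (by positivity) hfy
    nlinarith
  have hb0 : 0 ≤ b := Nat.cast_nonneg _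
  have ha'0 : 0 ≤ a' := by positivity
  have ha'1 : a' ≤ Γ ^ i * (M : ℝ) ^ (i * j) := by
    calc a' ≤ (r : ℝ) ^ i := div_le_self (by positivity) hfi
      _ ≤ (Γ * (M : ℝ) ^ j) ^ i := pow_le_pow_left₀ (Nat.cast_nonneg r) hr i
      _ = Γ ^ i * (M : ℝ) ^ (i * j) := by rw [mul_pow, ← pow_mul, mul_comm j i]
  have hfirst : (M : ℝ) * |a - a'| ≤ Ca * Γ ^ (i - 1) * (M : ℝ) ^ (i * j) := by
    rcases Nat.eq_zero_or_pos i with h0 | h0
    · have : a - a' = 0 := by rw [hadef, ha', h0]; simp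
      rw [this, abs_zero, mul_zero]
      positivity
    rcases Nat.eq_zero_or_pos r with hr0 | hr0
    · have : a - a' = 0 := by
        rw [hadef, ha', hr0, Nat.choose_eq_zero_of_lt h0]
        simp [h0.ne']
      rw [this, abs_zero, mul_zero]
      positivity
    have hr1 : (1 : ℝ) ≤ r := by exact_mod_cast hr0
    have h1 := ha r
    have h2 : |a - a'| ≤ Ca * (r : ℝ) ^ (i - 1) := by
      have : (r : ℝ) * |a - a'| ≤ (r : ℝ) * (Ca * (r : ℝ) ^ (i - 1)) := by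
        refine h1.trans (le_of_eq ?_)
        obtain ⟨m, rfl⟩ : ∃ m, i = m + 1 := ⟨i - 1, by omega⟩
        rw [Nat.add_sub_cancel, pow_succ]; ring
      exact le_of_mul_le_mul_left this (by linarith)
    have h3 : (r : ℝ) ^ (i - 1) ≤ Γ ^ (i - 1) * (M : ℝ) ^ (j * (i - 1)) := by
      calc (r : ℝ) ^ (i - 1) ≤ (Γ * (M : ℝ) ^ j) ^ (i - 1) :=
            pow_le_pow_left₀ (Nat.cast_nonneg r) hr _
        _ = _ := by rw [mul_pow, ← pow_mul]
    have h4 : (M : ℝ) * (M : ℝ) ^ (j * (i - 1)) ≤ (M : ℝ) ^ (i * j) := by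
      rw [← pow_succ']
      refine pow_le_pow_right₀ hM1 ?_
      obtain ⟨m, rfl⟩ : ∃ m, i = m + 1 := ⟨i - 1, by omega⟩
      rw [Nat.add_sub_cancel]
      nlinarith
    calc (M : ℝ) * |a - a'| ≤ (M : ℝ) * (Ca * (Γ ^ (i - 1) * (M : ℝ) ^ (j * (i - 1)))) := by
          refine mul_le_mul_of_nonneg_left (h2.trans ?_) hM0.le
          exact mul_le_mul_of_nonneg_left h3 hCa
      _ = Ca * Γ ^ (i - 1) * ((M : ℝ) * (M : ℝ) ^ (j * (i - 1))) := by ring
      _ ≤ Ca * Γ ^ (i - 1) * (M : ℝ) ^ (i * j) := mul_le_mul_of_nonneg_left h4 (by positivity)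
  have hsplit : a * b - a' * b' = (a - a') * b + a' * (b - b') := by ring
  rw [hsplit]
  calc (M : ℝ) * |(a - a') * b + a' * (b - b')|
      ≤ (M : ℝ) * (|a - a'| * b + a' * |b - b'|) := by
        refine mul_le_mul_of_nonneg_left ((abs_add_le _ _).trans ?_) hM0.le
        rw [abs_mul, abs_mul, abs_of_nonneg hb0, abs_of_nonneg ha'0]
    _ = ((M : ℝ) * |a - a'|) * b + a' * ((M : ℝ) * |b - b'|) := by ring
    _ ≤ (Ca * Γ ^ (i - 1) * (M : ℝ) ^ (i * j)) * ((1 + Cb) * (M : ℝ) ^ y) +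
        (Γ ^ i * (M : ℝ) ^ (i * j)) * (Cb * (M : ℝ) ^ y) := by
        refine add_le_add ?_ ?_
        · exact mul_le_mul hfirst hb3 hb0 (by positivity)
        · exact mul_le_mul ha'1 hb2 (by positivity) (by positivity)
    _ = (Ca * Γ ^ (i - 1) * (1 + Cb) + Γ ^ i * Cb) * (M : ℝ) ^ c := by
        rw [hc, pow_add]; ring

theorem hASY : Pool.Agent.Helper65.HF.sASY := by
  intro j c Γ hj hΓ
  have hT : ∀ i : ℕ, ∃ T : ℝ, 0 ≤ T ∧ (i * j ≤ c → ∀ M r : ℕ, 1 ≤ M →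
      (r : ℝ) ≤ Γ * (M : ℝ) ^ j →
      (M : ℝ) * |(r.choose i : ℝ) * ((M + (c - i * j) - 1).choose (c - i * j) : ℝ) -
        (r : ℝ) ^ i / (i.factorial : ℝ) * ((M : ℝ) ^ (c - i * j) / ((c - i * j).factorial : ℝ))|
        ≤ T * (M : ℝ) ^ c) := by
    intro i
    by_cases h : i * j ≤ c
    · obtain ⟨T, h1, h2⟩ := asy_t j c i Γ hj hΓ h
      exact ⟨T, h1, fun _ => h2⟩
    · exact ⟨0, le_rfl, fun h' => absurd h' h⟩
  choose T hT0 hT1 using hT
  refine ⟨1 + ∑ i ∈ Finset.range (c / j + 1), T i, ?_, ?_⟩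
  · have : 0 ≤ ∑ i ∈ Finset.range (c / j + 1), T i := Finset.sum_nonneg fun i _ => hT0 i
    linarith
  intro M r hM hr
  have hM1 : (1 : ℝ) ≤ M := by exact_mod_cast hM
  have hM0 : (0 : ℝ) < M := by linarith
  have hMj : (0 : ℝ) < (M : ℝ) ^ j := by positivity
  have hle : ∀ i ∈ Finset.range (c / j + 1), i * j ≤ c := by
    intro i hi
    have h1 : i ≤ c / j := Nat.lt_succ_iff.1 (Finset.mem_range.1 hi)
    exact (Nat.mul_le_mul_right j h1).trans (Nat.div_mul_le_self c j)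
  have hdiff : (EE j M r c : ℝ) - (M : ℝ) ^ c * thr j c ((r : ℝ) / (M : ℝ) ^ j) =
      ∑ i ∈ Finset.range (c / j + 1), (-1 : ℝ) ^ i *
        ((r.choose i : ℝ) * ((M + (c - i * j) - 1).choose (c - i * j) : ℝ) -
        (r : ℝ) ^ i / (i.factorial : ℝ) * ((M : ℝ) ^ (c - i * j) / ((c - i * j).factorial : ℝ))) := by
    unfold EE thr
    push_cast
    rw [Finset.mul_sum, ← Finset.sum_sub_distrib]
    refine Finset.sum_congr rfl fun i hi => ?_
    have h1 := hle i hi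
    have h2 : (M : ℝ) ^ c = (M : ℝ) ^ (c - i * j) * ((M : ℝ) ^ j) ^ i := by
      rw [← pow_mul, ← pow_add]
      congr 1
      rw [mul_comm j i]
      omega
    have h3 : (-((r : ℝ) / (M : ℝ) ^ j)) ^ i = (-1) ^ i * (r : ℝ) ^ i / ((M : ℝ) ^ j) ^ i := by
      rw [neg_pow, div_pow, mul_div_assoc]
    rw [h2, h3]
    have h4 : ((M : ℝ) ^ j) ^ i ≠ 0 := by positivity
    have h5 : (i.factorial : ℝ) ≠ 0 := by positivity
    have h6 : ((c - i * j).factorial : ℝ) ≠ 0 := by positivity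
    field_simp
  have hmul : (M : ℝ) * |(EE j M r c : ℝ) - (M : ℝ) ^ c * thr j c ((r : ℝ) / (M : ℝ) ^ j)| ≤
      (1 + ∑ i ∈ Finset.range (c / j + 1), T i) * (M : ℝ) ^ c := by
    rw [hdiff]
    calc (M : ℝ) * |∑ i ∈ Finset.range (c / j + 1), (-1 : ℝ) ^ i *
        ((r.choose i : ℝ) * ((M + (c - i * j) - 1).choose (c - i * j) : ℝ) -
        (r : ℝ) ^ i / (i.factorial : ℝ) * ((M : ℝ) ^ (c - i * j) / ((c - i * j).factorial : ℝ)))|
        ≤ (M : ℝ) * ∑ i ∈ Finset.range (c / j + 1), |(-1 : ℝ) ^ i *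
        ((r.choose i : ℝ) * ((M + (c - i * j) - 1).choose (c - i * j) : ℝ) -
        (r : ℝ) ^ i / (i.factorial : ℝ) * ((M : ℝ) ^ (c - i * j) / ((c - i * j).factorial : ℝ)))| :=
          mul_le_mul_of_nonneg_left (Finset.abs_sum_le_sum_abs _ _) hM0.le
      _ ≤ ∑ i ∈ Finset.range (c / j + 1), T i * (M : ℝ) ^ c := by
          rw [Finset.mul_sum]
          refine Finset.sum_le_sum fun i hi => ?_
          rw [abs_mul, abs_pow, abs_neg, abs_one, one_pow, one_mul]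
          exact hT1 i (hle i hi) M r hM hr
      _ = (∑ i ∈ Finset.range (c / j + 1), T i) * (M : ℝ) ^ c := by rw [Finset.sum_mul]
      _ ≤ (1 + ∑ i ∈ Finset.range (c / j + 1), T i) * (M : ℝ) ^ c := by
          refine mul_le_mul_of_nonneg_right (by linarith) (by positivity)
  have hfin : (M : ℝ) ^ c ≤ (M : ℝ) * (M : ℝ) ^ (c - 1) := by
    rw [← pow_succ']
    exact pow_le_pow_right₀ hM1 (by omega)
  have hK : 0 ≤ 1 + ∑ i ∈ Finset.range (c / j + 1), T i := by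
    have : 0 ≤ ∑ i ∈ Finset.range (c / j + 1), T i := Finset.sum_nonneg fun i _ => hT0 i
    linarith
  have : (M : ℝ) * |(EE j M r c : ℝ) - (M : ℝ) ^ c * thr j c ((r : ℝ) / (M : ℝ) ^ j)| ≤
      (M : ℝ) * ((1 + ∑ i ∈ Finset.range (c / j + 1), T i) * (M : ℝ) ^ (c - 1)) := by
    refine hmul.trans ((mul_le_mul_of_nonneg_left hfin hK).trans (le_of_eq (by ring)))
  exact le_of_mul_le_mul_left this hM0

end Pool.Agent.Helper54.HF
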