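import Pool.Agent.Helper65.HF.StN

/-!
Project HF, module NUS.
-/

namespace Pool.Agent.Helper54.HF

open Pool.Agent.Helper65.HF Pool.Agent.Helper45 Filter Topology

theorem wd_nonneg (p M : ℕ) : 0 ≤ wd p M := by
  unfold wd
  exact mul_nonneg (by positivity) (Real.sqrt_nonneg _)

theorem wd_small (p : ℕ) {ε : ℝ} (hε : 0 < ε) : ∃ B : ℕ, ∀ b ≥ B, wd p b ≤ ε * (b : ℝ) ^ (p + 1) := by
  have h1 := (Real.isLittleO_log_id_atTop.def (by positivity : 0 < ε ^ 2))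
  have h2 := (tendsto_natCast_atTop_atTop (R := ℝ)).eventually h1
  obtain ⟨B, hB⟩ := eventually_atTop.1 h2
  refine ⟨max B 1, fun b hb => ?_⟩
  have hb1 : (1 : ℝ) ≤ b := by exact_mod_cast (le_max_right B 1).trans hb
  have h3 := hB b ((le_max_left B 1).trans hb)
  rw [Real.norm_eq_abs, Real.norm_eq_abs, id, abs_of_nonneg (by linarith : (0 : ℝ) ≤ b)] at h3
  have h4 : Real.log b ≤ ε ^ 2 * b := (le_abs_self _).trans h3
  have h5 : Real.sqrt (b * Real.log b) ≤ ε * b := by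
    refine Real.sqrt_le_iff.2 ⟨by positivity, ?_⟩
    nlinarith
  unfold wd
  calc (b : ℝ) ^ p * Real.sqrt (b * Real.log b) ≤ (b : ℝ) ^ p * (ε * b) :=
        mul_le_mul_of_nonneg_left h5 (by positivity)
    _ = ε * (b : ℝ) ^ (p + 1) := by ring

theorem pow_le_wd {M : ℕ} (hM : 2 ≤ M) (p : ℕ) : (M : ℝ) ^ p ≤ wd p M := by
  have h2 : (2 : ℝ) ≤ M := by exact_mod_cast hM
  have h3 : Real.log 2 ≤ Real.log M := Real.log_le_log (by norm_num) h2
  have h4 := Real.log_two_gt_d9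
  have h5 : (1 : ℝ) ≤ Real.sqrt (M * Real.log M) := by
    rw [Real.one_le_sqrt]
    nlinarith
  unfold wd
  exact le_mul_of_one_le_right (by positivity) h5

theorem wd_mono {a b : ℕ} (ha : 1 ≤ a) (hab : a ≤ b) (p : ℕ) : wd p a ≤ wd p b := by
  have h1 : (1 : ℝ) ≤ a := by exact_mod_cast ha
  have h2 : (a : ℝ) ≤ b := by exact_mod_cast hab
  have h3 : Real.log a ≤ Real.log b := Real.log_le_log (by linarith) h2
  have h4 : 0 ≤ Real.log a := Real.log_nonneg h1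
  unfold wd
  refine mul_le_mul (pow_le_pow_left₀ (by linarith) h2 p) (Real.sqrt_le_sqrt ?_)
    (Real.sqrt_nonneg _) (by positivity)
  exact mul_le_mul h2 h3 h4 (by linarith)

theorem wd_mul_pow (p q M : ℕ) : wd p M * (M : ℝ) ^ q = wd (p + q) M := by
  unfold wd
  rw [pow_add]; ring

theorem pow_pred_bound {ν j : ℕ} (hν : 1 ≤ ν) (hj : 1 ≤ j) :
    (ν : ℝ) ^ j - ((ν - 1 : ℕ) : ℝ) ^ j ≤ j * (ν : ℝ) ^ (j - 1) := by
  have h1 : (1 : ℝ) ≤ ν := by exact_mod_cast hν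
  have h0 : (0 : ℝ) < ν := by linarith
  have hb := one_add_mul_le_pow (a := -(1 / (ν : ℝ))) (by
    have : 1 / (ν : ℝ) ≤ 1 := by rw [div_le_one h0]; exact h1
    linarith) j
  have h2 : (ν : ℝ) ^ j * (1 + -(1 / (ν : ℝ))) ^ j = ((ν - 1 : ℕ) : ℝ) ^ j := by
    rw [← mul_pow]
    congr 1
    rw [Nat.cast_sub hν]
    field_simp
    push_cast
    ring
  have h3 : (ν : ℝ) ^ j = (ν : ℝ) ^ (j - 1) * ν := by
    rw [← pow_succ]; congr 1; omega
  have h4 := mul_le_mul_of_nonneg_left hb (by positivity : (0 : ℝ) ≤ (ν : ℝ) ^ j)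
  rw [h2] at h4
  have h5 : (ν : ℝ) ^ j * (1 + (j : ℝ) * -(1 / (ν : ℝ))) = (ν : ℝ) ^ j - j * (ν : ℝ) ^ (j - 1) := by
    rw [h3]; field_simp
    ring
  linarith

theorem zero_lt {j s : ℕ} (hj : 2 ≤ j) {cS cS' : ℝ} (h : IsZ j s cS) (h' : IsZ j (s - 1) cS')
    (hs : 1 ≤ s) : cS < cS' := by
  by_contra hcon
  push Not at hcon
  rcases lt_or_eq_of_le hcon with h1 | h1
  · have h2 := thr_pos_of_pos (by omega : 1 ≤ j) s cS'
      (fun x hx0 hxs => h.2.2 x hx0 (lt_of_le_of_lt hxs h1)) (s - 1) (by omega) cS' h'.1.le le_rfl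
    rw [h'.2.1] at h2
    exact lt_irrefl _ h2
  · have h2 := isZ_pos hj s cS h (s - 1) (by omega)
    rw [← h1, h'.2.1] at h2
    exact lt_irrefl _ h2

/-- The final estimate. -/
theorem nus_bound {j s ν : ℕ} {cS Cs C2 e r : ℝ} (hj : 1 ≤ j) (hjs : j ≤ s) (hν2 : 2 ≤ ν)
    (hcS0 : 0 < cS) (hCs0 : 0 ≤ Cs) (hC20 : 0 ≤ C2)
    (hgl : cS * ((ν - 1 : ℕ) : ℝ) ^ j - Cs * wd (j - 1) (ν - 1) < r)
    (h3 : e ≤ C2 * (cS - r / (ν : ℝ) ^ j) * (ν : ℝ) ^ s + C2 * (ν : ℝ) ^ (s - 1)) :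
    e ≤ (C2 * (cS * j) + C2 * Cs + C2) * wd (s - 1) ν := by
  have hν1 : (1 : ℝ) ≤ ν := by exact_mod_cast (by omega : 1 ≤ ν)
  have hν0 : (0 : ℝ) < ν := by linarith
  have hj0 : (0 : ℝ) ≤ j := Nat.cast_nonneg _
  have hpow : (ν : ℝ) ^ s = (ν : ℝ) ^ (s - j) * (ν : ℝ) ^ j := by
    rw [← pow_add]; congr 1; omega
  have hdist : cS * (ν : ℝ) ^ j - r ≤ cS * (j * (ν : ℝ) ^ (j - 1)) + Cs * wd (j - 1) ν := by
    have h5 := pow_pred_bound (by omega : 1 ≤ ν) (by omega : 1 ≤ j)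
    have h6 : wd (j - 1) (ν - 1) ≤ wd (j - 1) ν := wd_mono (by omega) (by omega) _
    have h8 := mul_le_mul_of_nonneg_left h5 hcS0.le
    have h9 := mul_le_mul_of_nonneg_left h6 hCs0
    linarith
  have e1 : (cS - r / (ν : ℝ) ^ j) * (ν : ℝ) ^ s =
      (cS * (ν : ℝ) ^ j - r) * (ν : ℝ) ^ (s - j) := by
    rw [hpow]
    field_simp
  have e2 : (cS * (j * (ν : ℝ) ^ (j - 1)) + Cs * wd (j - 1) ν) * (ν : ℝ) ^ (s - j) =
      cS * j * (ν : ℝ) ^ (s - 1) + Cs * wd (s - 1) ν := by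
    have h10 : (ν : ℝ) ^ (j - 1) * (ν : ℝ) ^ (s - j) = (ν : ℝ) ^ (s - 1) := by
      rw [← pow_add]; congr 1; omega
    have h11 := wd_mul_pow (j - 1) (s - j) ν
    rw [show j - 1 + (s - j) = s - 1 by omega] at h11
    rw [← h11, ← h10]; ring
  have h12 : (cS - r / (ν : ℝ) ^ j) * (ν : ℝ) ^ s ≤
      cS * j * (ν : ℝ) ^ (s - 1) + Cs * wd (s - 1) ν := by
    rw [e1, ← e2]
    exact mul_le_mul_of_nonneg_right hdist (by positivity)
  have h13 := pow_le_wd hν2 (s - 1)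
  have h14 : C2 * (cS - r / (ν : ℝ) ^ j) * (ν : ℝ) ^ s ≤
      C2 * (cS * j * wd (s - 1) ν + Cs * wd (s - 1) ν) := by
    rw [mul_assoc]
    refine mul_le_mul_of_nonneg_left (h12.trans ?_) hC20
    have := mul_le_mul_of_nonneg_left h13 (by positivity : (0 : ℝ) ≤ cS * j)
    linarith
  have h15 : C2 * (ν : ℝ) ^ (s - 1) ≤ C2 * wd (s - 1) ν := mul_le_mul_of_nonneg_left h13 hC20
  calc e ≤ C2 * (cS - r / (ν : ℝ) ^ j) * (ν : ℝ) ^ s + C2 * (ν : ℝ) ^ (s - 1) := h3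
    _ ≤ C2 * (cS * j * wd (s - 1) ν + Cs * wd (s - 1) ν) + C2 * wd (s - 1) ν :=
        add_le_add h14 h15
    _ = _ := by ring

set_option maxHeartbeats 2000000 in
theorem hNUS : Pool.Agent.Helper65.HF.sNUS := by
  intro hHUP hREC hEEB k _ _ j d cs η hj hη hcs hgap hbel s hjs hsd
  obtain ⟨hr1, -, hr3, -⟩ := hREC
  obtain ⟨cS, hcS⟩ := exists_isZ (by omega : 1 ≤ j) hjs
  have hlt : cs + η < cS := hgap s cS hjs hsd hcS
  have hcspos : 0 < cs := hcs.1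
  have hcS0 : 0 < cS := hcS.1
  obtain ⟨Cs₀, Ms, hMs⟩ := hbel s hjs hsd cS hcS
  set Cs : ℝ := |Cs₀| with hCs
  have hCs0 : 0 ≤ Cs := abs_nonneg _
  have hexS : ∀ b ≥ Ms, ∀ r : ℕ, (r : ℝ) ≤ cS * (b : ℝ) ^ j - Cs * wd (j - 1) b →
      (H k j b r s : ℤ) = EE j b r s := by
    intro b hb r hr
    refine hMs b hb r (hr.trans ?_)
    have := mul_le_mul_of_nonneg_right (le_abs_self Cs₀) (wd_nonneg (j - 1) b)
    linarith
  -- exactness in degree s - 1
  obtain ⟨B', hB'⟩ : ∃ B' : ℕ, ∀ b ≥ B', ∀ r : ℕ,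
      (r : ℝ) ≤ cS * (b : ℝ) ^ j - Cs * wd (j - 1) b →
      (H k j b r (s - 1) : ℤ) = EE j b r (s - 1) := by
    by_cases hs1 : j ≤ s - 1
    · obtain ⟨cS', hcS'⟩ := exists_isZ (by omega : 1 ≤ j) hs1
      obtain ⟨C₀', M', hM'⟩ := hbel (s - 1) hs1 (by omega) cS' hcS'
      have hl := zero_lt hj hcS hcS' (by omega)
      obtain ⟨B, hB⟩ := wd_small (j - 1) (ε := (cS' - cS) / (|C₀'| + 1))
        (div_pos (by linarith) (by positivity))
      refine ⟨max M' B, fun b hb r hr => hM' b ((le_max_left _ _).trans hb) r (hr.trans ?_)⟩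
      have h1 := hB b ((le_max_right _ _).trans hb)
      rw [show j - 1 + 1 = j by omega] at h1
      have h2 : C₀' * wd (j - 1) b ≤ (cS' - cS) * (b : ℝ) ^ j := by
        calc C₀' * wd (j - 1) b ≤ (|C₀'| + 1) * wd (j - 1) b :=
              mul_le_mul_of_nonneg_right (by linarith [le_abs_self C₀']) (wd_nonneg _ _)
          _ ≤ (|C₀'| + 1) * ((cS' - cS) / (|C₀'| + 1) * (b : ℝ) ^ j) :=
              mul_le_mul_of_nonneg_left h1 (by positivity)
          _ = (cS' - cS) * (b : ℝ) ^ j := by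
              have : |C₀'| + 1 ≠ 0 := by positivity
              field_simp
      have h3 := mul_nonneg hCs0 (wd_nonneg (j - 1) b)
      linarith
    · refine ⟨0, fun b _ r _ => ?_⟩
      have h1 := (hHUP k j b r (s - 1) (by omega)).2.2.1 (by omega)
      have h2 := hr3 j b r (s - 1) (by omega)
      rw [h1, h2]
  -- the parameter θ'
  obtain ⟨θ', hθ0, hθ1, hθ2⟩ : ∃ θ' : ℝ, 0 < θ' ∧ θ' < 1 ∧ cs + η < cS * θ' ^ j := by
    have hc : Tendsto (fun t : ℝ => cS * t ^ j) (𝓝[<] 1) (𝓝 cS) := by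
      have h : Tendsto (fun t : ℝ => cS * t ^ j) (𝓝 1) (𝓝 (cS * 1 ^ j)) :=
        (continuous_const.mul (continuous_pow j)).tendsto 1
      rw [one_pow, mul_one] at h
      exact h.mono_left nhdsWithin_le_nhds
    have h1 := hc.eventually_const_lt hlt
    have h2 : ∀ᶠ t : ℝ in 𝓝[<] 1, t ∈ Set.Ioo (0 : ℝ) 1 := Ioo_mem_nhdsLT one_pos
    obtain ⟨t, ht1, ht2⟩ := (h1.and h2).exists
    exact ⟨t, ht2.1, ht2.2, ht1⟩
  set δ : ℝ := cS * θ' ^ j - (cs + η) with hδ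
  have hδ0 : 0 < δ := by rw [hδ]; linarith
  have hθj : θ' ^ j ≤ 1 := pow_le_one₀ hθ0.le hθ1.le
  have hθj0 : 0 < θ' ^ j := by positivity
  have hδS : δ ≤ cS := by
    rw [hδ]; nlinarith
  obtain ⟨B1, hB1⟩ := wd_small (j - 1) (ε := δ / (Cs + 1)) (by positivity)
  obtain ⟨η', c1, C2, M1, hη', hc1, hC2, hM1, -, -, hEE3, -, -⟩ := hEEB j s cS hj hcS
  set A : ℕ := max 2 (max Ms B') with hA
  have hA2 : 2 ≤ A := le_max_left _ _
  have hAM : Ms ≤ A := (le_max_left _ _).trans (le_max_right _ _)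
  have hAB : B' ≤ A := (le_max_right _ _).trans (le_max_right _ _)
  set θ : ℝ := (θ' + 1) / 2 with hθ
  set CC : ℝ := ((A + s - 1).choose s : ℝ) + C2 * (cS * j) + C2 * Cs + C2 + 1 with hCC
  have hC20 : 0 ≤ C2 := by linarith
  have hch0 : (0 : ℝ) ≤ ((A + s - 1).choose s : ℝ) := Nat.cast_nonneg _
  have hj0 : (0 : ℝ) ≤ j := Nat.cast_nonneg _
  have hCC0 : 0 < CC := by
    have h1 : 0 ≤ C2 * (cS * j) := by positivity
    have h2 : 0 ≤ C2 * Cs := by positivity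
    rw [hCC]; linarith
  obtain ⟨M0, hM0⟩ : ∃ M0 : ℕ, ((A : ℝ) + B1 + 2) / θ' + 2 / (1 - θ') ≤ M0 := exists_nat_ge _
  refine ⟨θ, CC, M0, by rw [hθ]; linarith, by rw [hθ]; linarith, hCC0, ?_⟩
  intro M hM r hr
  have hMM : ((A : ℝ) + B1 + 2) / θ' + 2 / (1 - θ') ≤ M := hM0.trans (by exact_mod_cast hM)
  have h1θ : 0 < 1 - θ' := by linarith
  have hp1 : 0 < ((A : ℝ) + B1 + 2) / θ' := by positivity
  have hp2 : 0 < 2 / (1 - θ') := by positivity
  have hMa : (A : ℝ) + B1 + 2 ≤ θ' * M := by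
    have : ((A : ℝ) + B1 + 2) / θ' ≤ M := by linarith
    rw [div_le_iff₀ hθ0] at this
    linarith
  have hMb : 2 ≤ (1 - θ') * M := by
    have : 2 / (1 - θ') ≤ (M : ℝ) := by linarith
    rw [div_le_iff₀ h1θ] at this
    linarith
  have hMpos : (0 : ℝ) < M := by
    have : (0 : ℝ) ≤ A := Nat.cast_nonneg _
    have h2 : (0 : ℝ) ≤ B1 := Nat.cast_nonneg _
    nlinarith
  -- the function g
  set g : ℕ → ℝ := fun b => cS * (b : ℝ) ^ j - Cs * wd (j - 1) b with hg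
  set n0 : ℕ := ⌈θ' * M⌉₊ with hn0
  have hn0a : θ' * M ≤ n0 := Nat.le_ceil _
  have hn0b : (n0 : ℝ) < θ' * M + 1 := Nat.ceil_lt_add_one (by positivity)
  have hn0A : A ≤ n0 := by
    have h2 : (0 : ℝ) ≤ B1 := Nat.cast_nonneg _
    have : (A : ℝ) ≤ n0 := by linarith
    exact_mod_cast this
  have hn0B : B1 ≤ n0 := by
    have h2 : (0 : ℝ) ≤ A := Nat.cast_nonneg _
    have : (B1 : ℝ) ≤ n0 := by linarith
    exact_mod_cast this
  have hgood : ∀ b : ℕ, n0 ≤ b → (r : ℝ) ≤ g b := by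
    intro b hb
    have h1 := hB1 b (hn0B.trans hb)
    rw [show j - 1 + 1 = j by omega] at h1
    have h2 : Cs * wd (j - 1) b ≤ δ * (b : ℝ) ^ j := by
      calc Cs * wd (j - 1) b ≤ (Cs + 1) * wd (j - 1) b :=
            mul_le_mul_of_nonneg_right (by linarith) (wd_nonneg _ _)
        _ ≤ (Cs + 1) * (δ / (Cs + 1) * (b : ℝ) ^ j) :=
            mul_le_mul_of_nonneg_left h1 (by positivity)
        _ = δ * (b : ℝ) ^ j := by
            have : Cs + 1 ≠ 0 := by positivity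
            field_simp
    have hbM : θ' * M ≤ b := hn0a.trans (by exact_mod_cast hb)
    have h3 : θ' ^ j * (M : ℝ) ^ j ≤ (b : ℝ) ^ j := by
      rw [← mul_pow]
      exact pow_le_pow_left₀ (by positivity) hbM j
    have h4 : (cs + η) * (M : ℝ) ^ j ≤ (cS - δ) * (θ' ^ j * (M : ℝ) ^ j) := by
      have h5 : cs + η ≤ (cS - δ) * θ' ^ j := by
        have : (cS - δ) * θ' ^ j = cS * θ' ^ j - δ * θ' ^ j := by ring
        have h6 : δ * θ' ^ j ≤ δ := by nlinarith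
        rw [this]
        have h7 : δ = cS * θ' ^ j - (cs + η) := hδ
        linarith
      have := mul_le_mul_of_nonneg_right h5 (by positivity : (0 : ℝ) ≤ (M : ℝ) ^ j)
      linarith
    have h8 : (cS - δ) * (θ' ^ j * (M : ℝ) ^ j) ≤ (cS - δ) * (b : ℝ) ^ j :=
      mul_le_mul_of_nonneg_left h3 (by linarith)
    show (r : ℝ) ≤ cS * (b : ℝ) ^ j - Cs * wd (j - 1) b
    linarith
  obtain ⟨ν, hνA, hνg, hνn0, hνmin⟩ : ∃ ν : ℕ, A ≤ ν ∧
      (∀ b : ℕ, ν ≤ b → b ≤ M → (r : ℝ) ≤ g b) ∧ ν ≤ n0 ∧ (A < ν → g (ν - 1) < r) := by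
    classical
    have hex : ∃ n : ℕ, A ≤ n ∧ ∀ b : ℕ, n ≤ b → b ≤ M → (r : ℝ) ≤ g b :=
      ⟨n0, hn0A, fun b hb _ => hgood b hb⟩
    refine ⟨Nat.find hex, (Nat.find_spec hex).1, (Nat.find_spec hex).2,
      Nat.find_min' hex ⟨hn0A, fun b hb _ => hgood b hb⟩, fun hgt => ?_⟩
    by_contra hcon
    push Not at hcon
    refine Nat.find_min hex (show Nat.find hex - 1 < Nat.find hex by omega) ?_
    refine ⟨by omega, fun b hb hbM => ?_⟩
    rcases Nat.eq_or_lt_of_le hb with h | h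
    · rw [← h]; exact hcon
    · exact (Nat.find_spec hex).2 b (by omega) hbM
  have hνθ : (ν : ℝ) ≤ θ * M := by
    have h1 : (ν : ℝ) ≤ n0 := by exact_mod_cast hνn0
    rw [hθ]
    linarith
  have hνM : ν < M := by
    have h1 : θ * M < M := by
      have h2 := mul_pos h1θ hMpos
      rw [hθ]
      linarith
    exact_mod_cast lt_of_le_of_lt hνθ h1
  have hν2 : 2 ≤ ν := hA2.trans hνA
  refine ⟨ν, hνM, hνθ, ?_, ?_⟩
  · intro b hb hbM
    have e1 := hexS (b + 1) (by omega) r (hνg (b + 1) (by omega) (by omega))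
    have e2 := hexS b (by omega) r (hνg b hb hbM.le)
    have e3 := hB' (b + 1) (by omega) r (hνg (b + 1) (by omega) (by omega))
    have e4 := hr1 j b r (s - 1) (by omega)
    rw [show s - 1 + 1 = s by omega, ← e1, ← e2, ← e3] at e4
    exact_mod_cast e4
  · have hwM : wd (s - 1) ν ≤ wd (s - 1) M := wd_mono (by omega) hνM.le _
    have hone : (1 : ℝ) ≤ wd (s - 1) M := by
      refine le_trans ?_ (pow_le_wd (by omega : 2 ≤ M) (s - 1))
      exact one_le_pow₀ (by exact_mod_cast (by omega : 1 ≤ M))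
    have hwM0 : 0 ≤ wd (s - 1) M := wd_nonneg _ _
    rcases Nat.eq_or_lt_of_le hνA with heq | hgt
    · have h1 := (hHUP k j ν r s (by omega)).1
      have h2 : (H k j ν r s : ℝ) ≤ ((A + s - 1).choose s : ℝ) := by
        rw [← heq] at h1
        have := h1
        rw [← heq]
        exact_mod_cast this
      have h3 : ((A + s - 1).choose s : ℝ) ≤ CC := by
        have h1 : 0 ≤ C2 * (cS * j) := by positivity
        have h2 : 0 ≤ C2 * Cs := by positivity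
        rw [hCC]; linarith
      nlinarith
    · have hgl : g (ν - 1) < r := hνmin hgt
      have hgν : (r : ℝ) ≤ g ν := hνg ν le_rfl hνM.le
      have hexν := hexS ν (by omega) r hgν
      have hrν : (r : ℝ) ≤ cS * (ν : ℝ) ^ j := by
        have h1 := mul_nonneg hCs0 (wd_nonneg (j - 1) ν)
        have h2 : g ν = cS * (ν : ℝ) ^ j - Cs * wd (j - 1) ν := rfl
        linarith
      have h3 := (hEE3 ν r (by omega) hrν).2
      have h4 : (H k j ν r s : ℝ) = (EE j ν r s : ℝ) := by exact_mod_cast hexν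
      rw [h4]
      have h16 : (EE j ν r s : ℝ) ≤ (C2 * (cS * j) + C2 * Cs + C2) * wd (s - 1) ν :=
        nus_bound (by omega) hjs hν2 hcS0 hCs0 hC20 hgl h3
      have h17 : 0 ≤ C2 * (cS * j) + C2 * Cs + C2 := by positivity
      calc (EE j ν r s : ℝ) ≤ (C2 * (cS * j) + C2 * Cs + C2) * wd (s - 1) ν := h16
        _ ≤ (C2 * (cS * j) + C2 * Cs + C2) * wd (s - 1) M := mul_le_mul_of_nonneg_left hwM h17
        _ ≤ CC * wd (s - 1) M := by
            refine mul_le_mul_of_nonneg_right ?_ hwM0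
            rw [hCC]; linarith

end Pool.Agent.Helper54.HF
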